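import Pool.Agent.Helper97.TN.St3

/-!
# Project TN, module R4: primes of degree one and two, and Frobenius elements
-/

set_option autoImplicit false

namespace Pool.Agent.Helper72.TN

open NumberField IsDedekindDomain Polynomial
open Pool.Agent.Helper97.TN Pool.Agent.Helper95.TT Pool.Agent.Helper24.TF Pool.Agent.Helper96.BC
open scoped Classical

theorem two_le_q {k : Type} [Field k] [NumberField k] (v : Pr k) : 2 ≤ q v := by
  have h0 : q v ≠ 0 := fun h => v.ne_bot (Ideal.absNorm_eq_zero_iff.mp h)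
  have h1 : q v ≠ 1 := fun h => v.isPrime.ne_top (Ideal.absNorm_eq_one_iff.mp h)
  omega

theorem fin_quot {k : Type} [Field k] [NumberField k] (v : Pr k) : Finite (𝓞 k ⧸ v.asIdeal) := by
  apply (Ideal.absNorm_ne_zero_iff _).mp
  intro h0
  exact v.ne_bot (Ideal.absNorm_eq_zero_iff.mp h0)

theorem q_card {k : Type} [Field k] [NumberField k] (v : Pr k) [Fintype (𝓞 k ⧸ v.asIdeal)] :
    q v = Fintype.card (𝓞 k ⧸ v.asIdeal) := by
  unfold q
  rw [Ideal.absNorm_apply, Submodule.cardQuot_apply, Nat.card_eq_fintype_card]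

/-- Fermat -/
theorem pow_card_quot {k : Type} [Field k] [NumberField k] (v : Pr k) (x : 𝓞 k ⧸ v.asIdeal) :
    x ^ q v = x := by
  have hM : v.asIdeal.IsMaximal := v.isMaximal
  let : Field (𝓞 k ⧸ v.asIdeal) := Ideal.Quotient.field v.asIdeal
  have := fin_quot v
  let : Fintype (𝓞 k ⧸ v.asIdeal) := Fintype.ofFinite _
  rw [q_card v]
  exact FiniteField.pow_card x

theorem pow_sub_mem {k : Type} [Field k] [NumberField k] (v : Pr k) (z : 𝓞 k) :
    z ^ q v - z ∈ v.asIdeal := by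
  rw [← Ideal.Quotient.eq_zero_iff_mem, map_sub, map_pow, pow_card_quot, sub_self]

/-- if `z ^ m = z` in the residue field, then it has at most `m` elements -/
theorem q_le {k : Type} [Field k] [NumberField k] (P : Pr k) (m : ℕ) (hm : 2 ≤ m)
    (h : ∀ z : 𝓞 k, z ^ m - z ∈ P.asIdeal) : q P ≤ m := by
  have hM : P.asIdeal.IsMaximal := P.isMaximal
  let : Field (𝓞 k ⧸ P.asIdeal) := Ideal.Quotient.field P.asIdeal
  have := fin_quot P
  let : Fintype (𝓞 k ⧸ P.asIdeal) := Fintype.ofFinite _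
  rw [q_card P]
  set Q : (𝓞 k ⧸ P.asIdeal)[X] := X ^ m - X with hQ
  have hm1 : 1 < m := hm
  have hQ0 : Q ≠ 0 := FiniteField.X_pow_card_sub_X_ne_zero _ hm1
  have hdeg : Q.natDegree = m := FiniteField.X_pow_card_sub_X_natDegree_eq _ hm1
  have hsub : (Finset.univ : Finset (𝓞 k ⧸ P.asIdeal)) ⊆ Q.roots.toFinset := by
    intro y _
    obtain ⟨z, rfl⟩ := Ideal.Quotient.mk_surjective y
    have h1 := h z
    rw [← Ideal.Quotient.eq_zero_iff_mem, map_sub, map_pow] at h1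
    rw [Multiset.mem_toFinset, mem_roots hQ0, IsRoot.def, hQ, eval_sub, eval_pow, eval_X]
    exact h1
  calc Fintype.card (𝓞 k ⧸ P.asIdeal) = (Finset.univ : Finset (𝓞 k ⧸ P.asIdeal)).card :=
        Finset.card_univ.symm
    _ ≤ Q.roots.toFinset.card := Finset.card_le_card hsub
    _ ≤ Multiset.card Q.roots := Multiset.toFinset_card_le _
    _ ≤ Q.natDegree := Polynomial.card_roots' Q
    _ = m := hdeg

section two

variable {k K : Type} [Field k] [NumberField k] [Field K] [NumberField K] [Algebra k K]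

/-- an element of the residue field fixed by the `q`-th power is in the small residue field -/
theorem fixed_q (v : Pr k) (P : Pr K) (hP : Above P v) (t : 𝓞 K) (ht : t ^ q v - t ∈ P.asIdeal) :
    ∃ c : 𝓞 k, t - algebraMap (𝓞 k) (𝓞 K) c ∈ P.asIdeal := by
  have hM : P.asIdeal.IsMaximal := P.isMaximal
  let : Field (𝓞 K ⧸ P.asIdeal) := Ideal.Quotient.field P.asIdeal
  have := fin_quot v
  let : Fintype (𝓞 k ⧸ v.asIdeal) := Fintype.ofFinite _
  have hle : v.asIdeal ≤ P.asIdeal.comap (algebraMap (𝓞 k) (𝓞 K)) := hP.ge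
  have hle' : P.asIdeal.comap (algebraMap (𝓞 k) (𝓞 K)) ≤ v.asIdeal := hP.le
  set ι : (𝓞 k ⧸ v.asIdeal) →+* (𝓞 K ⧸ P.asIdeal) :=
    Ideal.quotientMap P.asIdeal (algebraMap (𝓞 k) (𝓞 K)) hle with hιdef
  have hι : Function.Injective ι := Ideal.quotientMap_injective' hle'
  set Q : (𝓞 K ⧸ P.asIdeal)[X] := X ^ q v - X with hQ
  have hq1 : 1 < q v := two_le_q v
  have hQ0 : Q ≠ 0 := FiniteField.X_pow_card_sub_X_ne_zero _ hq1
  have hdeg : Q.natDegree = q v := FiniteField.X_pow_card_sub_X_natDegree_eq _ hq1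
  have hroot : ∀ y : 𝓞 K ⧸ P.asIdeal, y ^ q v = y → y ∈ Q.roots.toFinset := by
    intro y hy
    rw [Multiset.mem_toFinset, mem_roots hQ0, IsRoot.def, hQ]
    simp [hy]
  have hsub : (Finset.univ.image fun x : 𝓞 k ⧸ v.asIdeal => ι x) ⊆ Q.roots.toFinset := by
    intro y hy
    obtain ⟨x, -, rfl⟩ := Finset.mem_image.mp hy
    apply hroot
    rw [← map_pow, pow_card_quot v x]
  have hcard : Q.roots.toFinset.card ≤ (Finset.univ.image fun x : 𝓞 k ⧸ v.asIdeal => ι x).card := by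
    rw [Finset.card_image_of_injective _ hι, Finset.card_univ, ← q_card v, ← hdeg]
    exact le_trans (Multiset.toFinset_card_le _) (Polynomial.card_roots' Q)
  have heq := Finset.eq_of_subset_of_card_le hsub hcard
  have h1 : (Ideal.Quotient.mk P.asIdeal t) ^ q v = Ideal.Quotient.mk P.asIdeal t := by
    rw [← Ideal.Quotient.eq_zero_iff_mem, map_sub, map_pow] at ht
    exact sub_eq_zero.mp ht
  have hz' := hroot _ h1
  rw [← heq] at hz'
  obtain ⟨x, -, hx⟩ := Finset.mem_image.mp hz'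
  obtain ⟨c, rfl⟩ := Ideal.Quotient.mk_surjective x
  refine ⟨c, ?_⟩
  rw [← Ideal.Quotient.eq_zero_iff_mem, map_sub, sub_eq_zero, ← hx]
  rfl

theorem q_pow {w : Pr K} {v : Pr k} (h : Above w v) : ∃ f, 1 ≤ f ∧ q w = q v ^ f := by
  have : w.asIdeal.LiesOver v.asIdeal := ⟨h.symm⟩
  exact ⟨w.asIdeal.inertiaDeg (𝓞 k), Ideal.inertiaDeg_pos _ _,
    (Ideal.absNorm_pow_inertiaDeg v.asIdeal w.asIdeal).symm⟩

end two

section main

variable {k K L : Type} [Field k] [NumberField k] [Field K] [NumberField K] [Field L]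
  [NumberField L] [Algebra k K] [Algebra k L]

/-- the restriction of an embedding to the integers -/
noncomputable def rr (x : K →ₐ[k] L) : 𝓞 K →ₐ[𝓞 k] 𝓞 L := RingOfIntegers.mapAlgHom x

theorem rr_coe (x : K →ₐ[k] L) (z : 𝓞 K) : ((rr x z : 𝓞 L) : L) = x (z : K) := rfl

/-- an integer of `K` separates two embeddings -/
theorem exists_sep (x x' : K →ₐ[k] L) (h : x ≠ x') : ∃ z : 𝓞 K, rr x z ≠ rr x' z := by
  by_contra hc
  apply h
  have hc' : ∀ z : 𝓞 K, x (z : K) = x' (z : K) := by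
    intro z
    by_contra h1
    exact hc ⟨z, fun h2 => h1 (by rw [← rr_coe, ← rr_coe, h2])⟩
  apply AlgHom.ext
  intro y
  obtain ⟨a, b, hb, rfl⟩ := IsFractionRing.div_surjective (A := 𝓞 K) y
  rw [map_div₀, map_div₀]
  exact congrArg₂ (· / ·) (hc' a) (hc' b)

/-- finitely many primes of `k` lie below primes which contain one of finitely many elements `≠ 0` -/
theorem fin_below (δ : 𝓞 L) (hδ0 : δ ≠ 0) :
    (⋃ V ∈ {V : Pr L | δ ∈ V.asIdeal},
      {v : Pr k | ∀ x : 𝓞 k, algebraMap (𝓞 k) (𝓞 L) x ∈ V.asIdeal ↔ x ∈ v.asIdeal}).Finite := by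
  have hfin : {V : Pr L | δ ∈ V.asIdeal}.Finite := by
    have h0 : Ideal.span {δ} ≠ (0 : Ideal (𝓞 L)) := by
      simpa [Ideal.span_singleton_eq_bot] using hδ0
    refine (Ideal.finite_factors h0).subset ?_
    intro V hV
    exact Ideal.dvd_span_singleton.mpr hV
  refine Set.Finite.biUnion hfin (fun V _ => Set.Subsingleton.finite ?_)
  intro v hv v' hv'
  apply HeightOneSpectrum.ext
  ext x
  rw [← hv x, ← hv' x]

/-- the prime of `K` given by an embedding and a prime of `L` -/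
noncomputable def WW (V : Pr L) (x : K →ₐ[k] L) : Pr K where
  asIdeal := V.asIdeal.comap (rr x)
  isPrime := by
    have := V.isPrime
    exact Ideal.comap_isPrime _ _
  ne_bot := by
    obtain ⟨a, ha, ha0⟩ : ∃ a : ℤ, (algebraMap ℤ (𝓞 L) a) ∈ V.asIdeal ∧ a ≠ 0 := by
      have h1 : V.asIdeal.comap (algebraMap ℤ (𝓞 L)) ≠ ⊥ :=
        Ideal.comap_ne_bot_of_integral_mem (x := (Submodule.exists_mem_ne_zero_of_ne_bot V.ne_bot).choose)
          (Submodule.exists_mem_ne_zero_of_ne_bot V.ne_bot).choose_spec.2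
          (Submodule.exists_mem_ne_zero_of_ne_bot V.ne_bot).choose_spec.1
          (Algebra.IsIntegral.isIntegral _)
      obtain ⟨a, ha, ha0⟩ := Submodule.exists_mem_ne_zero_of_ne_bot h1
      exact ⟨a, ha, ha0⟩
    intro h
    have h2 : (algebraMap ℤ (𝓞 K) a) ∈ V.asIdeal.comap (rr x) := by
      rw [Ideal.mem_comap]
      have : (rr x) (algebraMap ℤ (𝓞 K) a) = algebraMap ℤ (𝓞 L) a := by simp
      rw [this]
      exact ha
    rw [h, Ideal.mem_bot] at h2
    apply ha0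
    have h3 : ((a : ℤ) : 𝓞 K) = 0 := by simpa using h2
    exact_mod_cast h3

theorem mem_WW (V : Pr L) (x : K →ₐ[k] L) (z : 𝓞 K) :
    z ∈ (WW V x).asIdeal ↔ rr x z ∈ V.asIdeal := Iff.rfl

theorem above_WW {v : Pr k} {V : Pr L}
    (hV : ∀ a : 𝓞 k, algebraMap (𝓞 k) (𝓞 L) a ∈ V.asIdeal ↔ a ∈ v.asIdeal) (x : K →ₐ[k] L) :
    Above (WW V x) v := by
  unfold Above
  ext a
  rw [Ideal.mem_comap, mem_WW, AlgHom.commutes, hV]

/-- the embedding `g ∘ x` -/
def gg (g : L ≃ₐ[k] L) (x : K →ₐ[k] L) : K →ₐ[k] L := (g : L →ₐ[k] L).comp x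

/-- reduction modulo `V` -/
noncomputable def ph (V : Pr L) (x : K →ₐ[k] L) (z : 𝓞 K) : 𝓞 L ⧸ V.asIdeal :=
  Ideal.Quotient.mk V.asIdeal (rr x z)

theorem ph_add (V : Pr L) (x : K →ₐ[k] L) (z z' : 𝓞 K) : ph V x (z + z') = ph V x z + ph V x z' := by
  unfold ph; rw [map_add, map_add]

theorem ph_sub (V : Pr L) (x : K →ₐ[k] L) (z z' : 𝓞 K) : ph V x (z - z') = ph V x z - ph V x z' := by
  unfold ph; rw [map_sub, map_sub]

theorem ph_mul (V : Pr L) (x : K →ₐ[k] L) (z z' : 𝓞 K) : ph V x (z * z') = ph V x z * ph V x z' := by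
  unfold ph; rw [map_mul, map_mul]

theorem ph_pow (V : Pr L) (x : K →ₐ[k] L) (z : 𝓞 K) (n : ℕ) : ph V x (z ^ n) = ph V x z ^ n := by
  unfold ph; rw [map_pow, map_pow]

theorem ph_base (V : Pr L) (x : K →ₐ[k] L) (a : 𝓞 k) :
    ph V x (algebraMap (𝓞 k) (𝓞 K) a) = Ideal.Quotient.mk V.asIdeal (algebraMap (𝓞 k) (𝓞 L) a) := by
  unfold ph; rw [AlgHom.commutes]

theorem mem_WW' (V : Pr L) (x : K →ₐ[k] L) (z : 𝓞 K) :
    z ∈ (WW V x).asIdeal ↔ ph V x z = 0 := by
  rw [mem_WW]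
  unfold ph
  rw [Ideal.Quotient.eq_zero_iff_mem]

/-- Frobenius -/
theorem ph_gg {v : Pr k} {V : Pr L} {g : L ≃ₐ[k] L}
    (hF : ∀ x y : 𝓞 L, g (x : L) = (y : L) → y - x ^ q v ∈ V.asIdeal) (x : K →ₐ[k] L) (z : 𝓞 K) :
    ph V (gg g x) z = ph V x z ^ q v := by
  have h1 := hF (rr x z) (rr (gg g x) z) rfl
  rw [← Ideal.Quotient.eq_zero_iff_mem, map_sub, map_pow] at h1
  exact sub_eq_zero.mp h1

variable {v : Pr k} {V : Pr L} {g : L ≃ₐ[k] L}

/-- the fixed embeddings give the primes of degree one -/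
theorem fix_one (hV : ∀ a : 𝓞 k, algebraMap (𝓞 k) (𝓞 L) a ∈ V.asIdeal ↔ a ∈ v.asIdeal)
    (hF : ∀ x y : 𝓞 L, g (x : L) = (y : L) → y - x ^ q v ∈ V.asIdeal)
    (hsep : ∀ x x' : K →ₐ[k] L, (∀ z, ph V x z = ph V x' z) → x = x') (x : K →ₐ[k] L) :
    gg g x = x ↔ q (WW V x) = q v := by
  constructor
  · intro h
    obtain ⟨f, hf, hf2⟩ := q_pow (above_WW hV x)
    have h1 : q (WW V x) ≤ q v := by
      apply q_le _ _ (two_le_q v)
      intro z
      rw [mem_WW', ph_sub, ph_pow, ← ph_gg hF, h, sub_self]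
    apply le_antisymm h1
    rw [hf2]
    calc q v = q v ^ 1 := (pow_one _).symm
      _ ≤ q v ^ f := Nat.pow_le_pow_right (by have := two_le_q v; omega) hf
  · intro h
    apply hsep
    intro z
    rw [ph_gg hF]
    have h1 := pow_sub_mem (WW V x) z
    rw [h, mem_WW', ph_sub, ph_pow, sub_eq_zero] at h1
    exact h1

/-- the embeddings fixed by the square give the primes of degree one or two -/
theorem fix_two (hV : ∀ a : 𝓞 k, algebraMap (𝓞 k) (𝓞 L) a ∈ V.asIdeal ↔ a ∈ v.asIdeal)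
    (hF : ∀ x y : 𝓞 L, g (x : L) = (y : L) → y - x ^ q v ∈ V.asIdeal)
    (hsep : ∀ x x' : K →ₐ[k] L, (∀ z, ph V x z = ph V x' z) → x = x') (x : K →ₐ[k] L) :
    gg g (gg g x) = x ↔ (q (WW V x) = q v ∨ q (WW V x) = q v ^ 2) := by
  have hgg : ∀ z, ph V (gg g (gg g x)) z = ph V x z ^ (q v ^ 2) := by
    intro z
    rw [ph_gg hF, ph_gg hF, ← pow_mul, pow_two]
  have h2 := two_le_q v
  constructor
  · intro h
    obtain ⟨f, hf, hf2⟩ := q_pow (above_WW hV x)
    have h1 : q (WW V x) ≤ q v ^ 2 := by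
      apply q_le _ _ (by nlinarith)
      intro z
      rw [mem_WW', ph_sub, ph_pow, ← hgg, h, sub_self]
    have h3 : f ≤ 2 := by
      by_contra hc
      have h4 : q v ^ 2 < q v ^ f := Nat.pow_lt_pow_right (by omega) (by omega)
      omega
    have h5 : f = 1 ∨ f = 2 := by omega
    rcases h5 with h5 | h5
    · left
      rw [hf2, h5, pow_one]
    · right
      rw [hf2, h5]
  · rintro (h | h)
    · rw [← fix_one hV hF hsep] at h
      rw [h, h]
    · apply hsep
      intro z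
      rw [hgg]
      have h1 := pow_sub_mem (WW V x) z
      rw [h, mem_WW', ph_sub, ph_pow, sub_eq_zero] at h1
      exact h1

/-- the fibres over primes of degree two -/
theorem fibre_two (hV : ∀ a : 𝓞 k, algebraMap (𝓞 k) (𝓞 L) a ∈ V.asIdeal ↔ a ∈ v.asIdeal)
    (hF : ∀ x y : 𝓞 L, g (x : L) = (y : L) → y - x ^ q v ∈ V.asIdeal)
    (hsep : ∀ x x' : K →ₐ[k] L, (∀ z, ph V x z = ph V x' z) → x = x') (x x' : K →ₐ[k] L)
    (hW : WW V x' = WW V x) (hq : q (WW V x) = q v ^ 2) : x' = x ∨ x' = gg g x := by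
  have : V.asIdeal.IsPrime := V.isPrime
  have hpow : ∀ z, ph V x z ^ (q v ^ 2) = ph V x z := by
    intro z
    have h1 := pow_sub_mem (WW V x) z
    rw [hq, mem_WW', ph_sub, ph_pow, sub_eq_zero] at h1
    exact h1
  have hcom : ∀ t : 𝓞 K, ph V x t ^ q v = ph V x t → ph V x' t = ph V x t := by
    intro t ht
    have h1 : t ^ q v - t ∈ (WW V x).asIdeal := by
      rw [mem_WW', ph_sub, ph_pow, ht, sub_self]
    obtain ⟨c, hc⟩ := fixed_q v (WW V x) (above_WW hV x) t h1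
    have hc' := hc
    rw [← hW] at hc'
    rw [mem_WW', ph_sub, ph_base, sub_eq_zero] at hc hc'
    rw [hc, hc']
  have hor : ∀ z, ph V x' z = ph V x z ∨ ph V x' z = ph V (gg g x) z := by
    intro z
    have hs : ph V x' (z + z ^ q v) = ph V x (z + z ^ q v) := by
      apply hcom
      rw [← ph_gg hF, ph_add, ph_pow, ph_gg hF, ← pow_mul, ← pow_two, hpow, ph_add, ph_pow, add_comm]
    have hn : ph V x' (z * z ^ q v) = ph V x (z * z ^ q v) := by
      apply hcom
      rw [← ph_gg hF, ph_mul, ph_pow, ph_gg hF, ← pow_mul, ← pow_two, hpow, ph_mul, ph_pow, mul_comm]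
    rw [ph_add, ph_pow, ph_add, ph_pow] at hs
    rw [ph_mul, ph_pow, ph_mul, ph_pow] at hn
    rw [ph_gg hF]
    have h1 : (ph V x' z - ph V x z) * (ph V x' z - ph V x z ^ q v) = 0 := by
      linear_combination (ph V x' z) * hs - hn
    rcases mul_eq_zero.mp h1 with h2 | h2
    · left
      exact sub_eq_zero.mp h2
    · right
      exact sub_eq_zero.mp h2
  by_cases hA : ∀ z, ph V x' z = ph V x z
  · left
    exact hsep _ _ hA
  · right
    apply hsep
    by_contra hB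
    obtain ⟨z₁, hz₁⟩ := not_forall.mp hA
    obtain ⟨z₂, hz₂⟩ := not_forall.mp hB
    have h1 : ph V x' z₁ = ph V (gg g x) z₁ := (hor z₁).resolve_left hz₁
    have h2 : ph V x' z₂ = ph V x z₂ := (hor z₂).resolve_right hz₂
    rcases hor (z₁ + z₂) with h3 | h3
    · rw [ph_add, ph_add, h2] at h3
      exact hz₁ (add_right_cancel h3)
    · rw [ph_add, ph_add, h1] at h3
      exact hz₂ (add_left_cancel h3)

/-- every prime above `v` comes from an embedding -/
theorem surj_WW [Algebra K L] [IsScalarTower k K L] [IsGalois k L]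
    (hV : ∀ a : 𝓞 k, algebraMap (𝓞 k) (𝓞 L) a ∈ V.asIdeal ↔ a ∈ v.asIdeal) (w : Pr K)
    (hw : Above w v) : ∃ x : K →ₐ[k] L, WW V x = w := by
  have hVp : V.asIdeal.IsPrime := V.isPrime
  have hwM : w.asIdeal.IsMaximal := w.isMaximal
  obtain ⟨V', hV'M, hV'⟩ := Ideal.exists_maximal_ideal_liesOver_of_isIntegral (S := 𝓞 L) w.asIdeal
  have hVo : V.asIdeal.LiesOver v.asIdeal := by
    constructor
    ext a
    rw [Ideal.under_def, Ideal.mem_comap, hV]
  have hwo : w.asIdeal.LiesOver v.asIdeal := ⟨hw.symm⟩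
  have hV'o : V'.LiesOver v.asIdeal := Ideal.LiesOver.trans V' w.asIdeal v.asIdeal
  obtain ⟨σ, hσ⟩ := Ideal.exists_comap_galRestrict_eq (𝓞 k) k L (𝓞 L) (p := v.asIdeal)
    (P₁ := V.asIdeal) (P₂ := V') ⟨hVp, hVo⟩ ⟨hV'M.isPrime, hV'o⟩
  refine ⟨gg σ (IsScalarTower.toAlgHom k K L), ?_⟩
  apply HeightOneSpectrum.ext
  ext z
  rw [mem_WW, hV'.over, Ideal.under_def, Ideal.mem_comap, ← hσ, Ideal.mem_comap]
  have : rr (gg σ (IsScalarTower.toAlgHom k K L)) z =
      galRestrict (𝓞 k) k L (𝓞 L) σ (algebraMap (𝓞 K) (𝓞 L) z) := by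
    apply RingOfIntegers.ext
    rw [rr_coe]
    have h1 := algebraMap_galRestrict_apply (𝓞 k) (K := k) (L := L) (B := 𝓞 L) σ
      (algebraMap (𝓞 K) (𝓞 L) z)
    exact h1.symm
  rw [this]

end main

theorem hR4 (hB2 : StB2) : StR4 := by
  intro k K L _ _ _ _ _ _ _ _ _ _ _
  obtain ⟨R₁, hR₁, h1⟩ := hB2 k K L
  have hfin : Finite (K →ₐ[k] L) := inferInstance
  let : Fintype (K →ₐ[k] L) := Fintype.ofFinite _
  have hz : ∀ p : (K →ₐ[k] L) × (K →ₐ[k] L), ∃ z : 𝓞 K, p.1 ≠ p.2 → rr p.1 z ≠ rr p.2 z := by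
    intro p
    by_cases h : p.1 = p.2
    · exact ⟨0, fun h' => (h' h).elim⟩
    · obtain ⟨z, hz⟩ := exists_sep p.1 p.2 h
      exact ⟨z, fun _ => hz⟩
  choose Z hZ using hz
  set δ : 𝓞 L := ∏ p ∈ (Finset.univ : Finset ((K →ₐ[k] L) × (K →ₐ[k] L))).filter
    (fun p => p.1 ≠ p.2), (rr p.1 (Z p) - rr p.2 (Z p)) with hδ
  have hδ0 : δ ≠ 0 := by
    rw [hδ, Finset.prod_ne_zero_iff]
    intro p hp
    rw [Finset.mem_filter] at hp
    exact sub_ne_zero.mpr (hZ p hp.2)
  refine ⟨R₁ ∪ _, hR₁.union (fin_below (k := k) δ hδ0), ?_⟩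
  intro v hv g hg
  rw [Set.mem_union, not_or] at hv
  have hB := h1 v hv.1 g hg
  have hN1 : (NN K 1 v : ℝ) = fxK k K g := by
    rw [← hB]
    unfold NN N1 Deg1
    simp only [pow_one]
  refine ⟨hN1, ?_⟩
  obtain ⟨V, hV, hF⟩ := hg
  have hVp : V.asIdeal.IsPrime := V.isPrime
  have hδV : δ ∉ V.asIdeal := by
    intro h
    exact hv.2 (Set.mem_biUnion (show V ∈ {V : Pr L | δ ∈ V.asIdeal} from h) hV)
  have hsep : ∀ x x' : K →ₐ[k] L, (∀ z, ph V x z = ph V x' z) → x = x' := by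
    intro x x' h
    by_contra hne
    apply hδV
    have h2 : rr x (Z (x, x')) - rr x' (Z (x, x')) ∈ V.asIdeal := by
      rw [← Ideal.Quotient.eq_zero_iff_mem, map_sub]
      exact sub_eq_zero.mpr (h _)
    have h3 : (rr x (Z (x, x')) - rr x' (Z (x, x'))) ∣ δ := by
      rw [hδ]
      exact Finset.dvd_prod_of_mem
        (fun p : (K →ₐ[k] L) × (K →ₐ[k] L) => rr p.1 (Z p) - rr p.2 (Z p)) (a := (x, x'))
        (Finset.mem_filter.mpr ⟨Finset.mem_univ _, hne⟩)
    obtain ⟨c, hc⟩ := h3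
    rw [hc]
    exact V.asIdeal.mul_mem_right c h2
  have h2 := two_le_q v
  -- the counts
  set X1 : Finset (K →ₐ[k] L) := Finset.univ.filter fun x => q (WW V x) = q v with hX1
  set X2 : Finset (K →ₐ[k] L) := Finset.univ.filter fun x => q (WW V x) = q v ^ 2 with hX2
  have hdis : Disjoint X1 X2 := by
    rw [Finset.disjoint_left]
    intro x h3 h4
    rw [hX1, Finset.mem_filter] at h3
    rw [hX2, Finset.mem_filter] at h4
    have h5 := h4.2
    rw [h3.2] at h5
    nlinarith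
  have hfix : ∀ (h : L ≃ₐ[k] L) (x : K →ₐ[k] L), (∀ y, h (x y) = x y) ↔ gg h x = x :=
    fun h x => ⟨fun h1 => AlgHom.ext h1, fun h1 y => DFunLike.congr_fun h1 y⟩
  have c1 : fxK k K g = (X1.card : ℝ) := by
    unfold fxK
    rw [Nat.subtype_card X1]
    intro x
    rw [hX1, Finset.mem_filter, hfix, fix_one hV hF hsep]
    simp
  have c2 : fxK k K (g * g) = ((X1 ∪ X2).card : ℝ) := by
    unfold fxK
    rw [Nat.subtype_card (X1 ∪ X2)]
    intro x
    have h3 : gg (g * g) x = gg g (gg g x) := rfl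
    rw [hX1, hX2, Finset.mem_union, Finset.mem_filter, Finset.mem_filter, hfix, h3,
      fix_two hV hF hsep]
    simp
  have c3 : X2.card = 2 * NN K 2 v := by
    have e1 : NN K 2 v = (X2.image (WW V)).card := by
      unfold NN
      apply Nat.subtype_card
      intro w
      rw [Finset.mem_image]
      constructor
      · rintro ⟨x, hx, rfl⟩
        rw [hX2, Finset.mem_filter] at hx
        exact ⟨above_WW hV x, hx.2⟩
      · rintro ⟨hw, hw2⟩
        obtain ⟨x, rfl⟩ := surj_WW hV w hw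
        exact ⟨x, Finset.mem_filter.mpr ⟨Finset.mem_univ _, hw2⟩, rfl⟩
    rw [e1, Finset.card_eq_sum_card_image (WW V) X2]
    rw [Finset.sum_const_nat (m := 2), mul_comm]
    intro w hw
    obtain ⟨x, hx, rfl⟩ := Finset.mem_image.mp hw
    have hx2 : q (WW V x) = q v ^ 2 := (Finset.mem_filter.mp hx).2
    have hne : x ≠ gg g x := by
      intro h
      have h3 := (fix_one hV hF hsep x).mp h.symm
      rw [hx2] at h3
      nlinarith
    have hgx : WW V (gg g x) = WW V x := by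
      apply HeightOneSpectrum.ext
      ext z
      rw [mem_WW', mem_WW', ph_gg hF]
      have : IsDomain (𝓞 L ⧸ V.asIdeal) := inferInstance
      exact pow_eq_zero_iff (by omega)
    have hf : X2.filter (fun x' => WW V x' = WW V x) = {x, gg g x} := by
      ext x'
      rw [Finset.mem_filter, Finset.mem_insert, Finset.mem_singleton]
      constructor
      · rintro ⟨-, h⟩
        exact fibre_two hV hF hsep x x' h hx2
      · rintro (rfl | rfl)
        · exact ⟨hx, rfl⟩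
        · refine ⟨Finset.mem_filter.mpr ⟨Finset.mem_univ _, ?_⟩, hgx⟩
          rw [hgx, hx2]
    rw [hf, Finset.card_pair hne]
  rw [hN1, c1, c2, Finset.card_union_of_disjoint hdis, c3]
  push_cast
  ring

end Pool.Agent.Helper72.TN
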